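import Mathlib
import Pool.Agent.H745.Dim
import Pool.Graph.R_pool_sql_team_seeded_63374d34.N492.Bdry

/-!
# Three-dimensional polyhedra that are not homeomorphic but have homeomorphic squares (Q2)

The problem file calls a space a 3-dimensional polyhedron if it is homeomorphic to the underlying
space of a finite simplicial complex of dimension exactly 3.  This is `IsPolyhedron 3`.

For `k = 1, 2` let `X k` be the set of all `(w, u)` in `ℂ × S¹` with `w⁵ uᵏ ∈ B`, where `B` is
the closed disc of radius 2 minus the open discs of radius 1/2 about `1` and `-1` (an earlier run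
has shown that `X 1` and `X 2` are not homeomorphic while their squares are).  Here we show that
both spaces are polyhedra of dimension exactly 3:

* `Pool.Agent.H745.SemiLin.exists_complex'`: every compact semilinear subset of a real normed
  space is the underlying space of a finite simplicial complex;
* `Pool.Agent.H745.Model.homeo_X_S`: `X k` is homeomorphic to an explicit compact semilinear subset
  `S k` of Euclidean five-space;
* `Pool.Agent.H745.Dim.exists_complex3`: the simplicial complex with underlying space `S k` has
  dimension exactly 3.
-/

set_option autoImplicit false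

open Set Topology

namespace Pool.Agent.Results.MP_2cc909_gt.PolyhedraSquares

open Pool.Agent.N492

/-- `X` is a `d`-dimensional polyhedron: it is homeomorphic to the underlying space of a finite
simplicial complex `K` (a geometric simplicial complex in some Euclidean space) of dimension
exactly `d`, that is, every simplex of `K` has at most `d + 1` vertices and some simplex of `K`
has `d + 1` vertices. -/
def IsPolyhedron (d : ℕ) (X : Type) [TopologicalSpace X] : Prop :=
  ∃ (n : ℕ) (K : Geometry.SimplicialComplex ℝ (EuclideanSpace ℝ (Fin n))),
    K.faces.Finite ∧ (∀ s ∈ K.faces, s.card ≤ d + 1) ∧ (∃ s ∈ K.faces, s.card = d + 1) ∧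
    Nonempty (X ≃ₜ K.space)

/-- There are two connected 3-dimensional polyhedra which are not homeomorphic but whose squares
are homeomorphic. -/
theorem result : ∃ (A B : Type) (_ : TopologicalSpace A) (_ : TopologicalSpace B),
    IsPolyhedron 3 A ∧ IsPolyhedron 3 B ∧ ConnectedSpace A ∧ ConnectedSpace B ∧
    IsEmpty (A ≃ₜ B) ∧ Nonempty ((A × A) ≃ₜ (B × B)) := by
  have key : ∀ k, k ≤ 2 → IsPolyhedron 3 (X k) := by
    intro k hk
    obtain ⟨K, h1, h2, h3, h4⟩ := Pool.Agent.H745.Dim.exists_complex3 hk
    obtain ⟨e⟩ := Pool.Agent.H745.Model.homeo_X_S hk
    exact ⟨5, K, h1, h2, h3, ⟨e.trans (Homeomorph.setCongr h4.symm)⟩⟩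
  have conn : ∀ k, ConnectedSpace (X k) := fun k =>
    isConnected_iff_connectedSpace.1 (isPathConnected_X k).isConnected
  exact ⟨X 1, X 2, inferInstance, inferInstance, key 1 (by norm_num), key 2 le_rfl, conn 1, conn 2,
    not_homeo, ⟨sqHomeo.symm⟩⟩

end Pool.Agent.Results.MP_2cc909_gt.PolyhedraSquares
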